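import Pool.Agent.H18.Danzer.Rect

/-!
# Danzer's problem: pieces with nearly parallel almost periods
-/

set_option autoImplicit false

open Metric Set MeasureTheory Filter

namespace Pool.Agent.H18.Danzer

theorem core {x : ℕ → Plane} {r : ℕ → ℝ} (hr : Tendsto r atTop atTop)
    {ι : Type*} [Fintype ι] (A : ℝ) (hA : 0 < A) (S : Set Plane) (F : ι → Set Plane)
    (D e : ι → ℝ) (d δ Λ : ℝ) (hδ : 0 ≤ δ) (hΛ : 0 < Λ) (w : Plane) (hw : w ≠ 0)
    (v : ι → Plane) (hv : ∀ i, v i ≠ 0) (hwv : ∀ i, |wedge (v i) w| ≤ δ)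
    (hvv : ∀ i j, |wedge (v i) (v j)| ≤ δ) (hD : ∀ i, DensityLE x r (F i) (D i))
    (he : ∀ i, DensityLE x r {p | p ∈ F i ∧ p - v i ∉ F i} (e i))
    (hd : DensityLE x r (S \ ⋃ i, F i) d)
    (hlt : A * (d + ∑ i, e i) + (A / Λ + 4 * Λ * δ) * ∑ i, D i < 1) :
    ∃ K : Set Plane, Convex ℝ K ∧ IsCompact K ∧ volume K = ENNReal.ofReal A ∧ Disjoint K S := by
  classical
  -- the longest vector
  obtain ⟨z, hz1, hz2, hz4⟩ : ∃ z : Plane, ‖w‖ ≤ ‖z‖ ∧ (∀ i, ‖v i‖ ≤ ‖z‖) ∧
      ∀ i, |wedge z (v i)| ≤ δ := by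
    obtain ⟨o, -, ho⟩ := Finset.exists_max_image (Finset.univ : Finset (Option ι))
      (fun o => ‖Option.elim o w v‖) ⟨none, Finset.mem_univ _⟩
    refine ⟨Option.elim o w v, ho none (Finset.mem_univ _), fun i => ho (some i)
      (Finset.mem_univ _), ?_⟩
    intro i
    rw [wedge_swap, abs_neg]
    cases o with
    | none => exact hwv i
    | some j => exact hvv i j
  have hM : 0 < ‖z‖ := lt_of_lt_of_le (norm_pos_iff.2 hw) hz1
  set M : ℝ := ‖z‖ with hMdef
  set u : Plane := (1 / M) • z with hudef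
  have hu : ‖u‖ = 1 := by
    rw [hudef, norm_smul, Real.norm_of_nonneg (by positivity), ← hMdef]
    field_simp
  set a : ℝ := M * Λ with hadef
  have ha : 0 < a := by positivity
  set b : ℝ := A / (4 * a) with hbdef
  have hb : 0 < b := by positivity
  set K : Set Plane := box u (-a) a (-b) b with hKdef
  have hKb : K ⊆ closedBall (0 : Plane) (a + b) := box_subset_closedBall hu ha.le hb.le
  have hKbdd : Bornology.IsBounded K := isBounded_closedBall.subset hKb
  have hKclosed : IsClosed K := isClosed_box _ _ _ _ _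
  have hKvol : volume K = ENNReal.ofReal A := by
    rw [hKdef, volume_box u hu, ← ENNReal.ofReal_mul (by linarith)]
    congr 1
    rw [hbdef]; field_simp; ring
  have hcr : ∀ i, volume {x : Plane | x ∈ K ∧ x - v i ∉ K} ≤
      ENNReal.ofReal (A / Λ + 4 * Λ * δ) := by
    intro i
    refine (volume_crescent hu ha.le hb.le (v i)).trans (ENNReal.ofReal_le_ofReal ?_)
    have h1 : |dot u (v i)| ≤ M := by
      have := abs_dot_le u (v i)
      rw [hu, one_mul] at this
      exact this.trans (hz2 i)
    have h2 : |wedge u (v i)| ≤ δ / M := by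
      have e : wedge u (v i) = (1 / M) * wedge z (v i) := by
        rw [hudef]; unfold wedge; simp; ring
      rw [e, abs_mul, abs_of_pos (by positivity : (0 : ℝ) < 1 / M)]
      calc 1 / M * |wedge z (v i)| ≤ 1 / M * δ := by
            apply mul_le_mul_of_nonneg_left (hz4 i) (by positivity)
        _ = _ := by ring
    calc 4 * b * |dot u (v i)| + 4 * a * |wedge u (v i)| ≤ 4 * b * M + 4 * a * (δ / M) := by
          gcongr
      _ = A / Λ + 4 * Λ * δ := by
          rw [hbdef, hadef]; field_simp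
  have hdense : ∃ y : Plane, ∀ s ∈ S, s - y ∉ K := by
    refine exists_avoid (x := x) hr (ι := Option (ι ⊕ ι)) S K
      (fun o => Option.elim o (S \ ⋃ i, F i)
        (Sum.elim (fun i => {p | p ∈ F i ∧ p - v i ∉ F i}) F))
      (fun o => Option.elim o K
        (Sum.elim (fun _ => K) (fun i => {x : Plane | x ∈ K ∧ x - v i ∉ K})))
      (fun o => Option.elim o A
        (Sum.elim (fun _ => A) (fun _ => A / Λ + 4 * Λ * δ)))
      (fun o => Option.elim o d (Sum.elim e D)) (a + b) ?_ ?_ ?_ ?_ ?_ ?_ ?_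
    · rintro (_ | _ | _)
      · exact hA.le
      · exact hA.le
      · show 0 ≤ A / Λ + 4 * Λ * δ
        positivity
    · rintro (_ | _ | i)
      · exact hKb
      · exact hKb
      · exact fun x hx => hKb hx.1
    · rintro (_ | _ | i)
      · exact hKclosed.measurableSet
      · exact hKclosed.measurableSet
      · show MeasurableSet {x : Plane | x ∈ K ∧ x - v i ∉ K}
        exact hKclosed.measurableSet.inter
          (((hKclosed.preimage (continuous_sub_right (v i))).measurableSet).compl)
    · rintro (_ | _ | i)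
      · exact hKvol.le
      · exact hKvol.le
      · exact hcr i
    · rintro (_ | i | i)
      · exact hd
      · exact he i
      · exact hD i
    · rintro x ⟨s, hs, hsx⟩
      by_cases hsF : s ∈ ⋃ i, F i
      · obtain ⟨i, hi⟩ := mem_iUnion.1 hsF
        obtain ⟨p, hp, hpx, h | h⟩ := exists_exit hKbdd (hv i) hi hsx
        · exact ⟨some (Sum.inl i), p, ⟨hp, h⟩, hpx⟩
        · refine ⟨some (Sum.inr i), p, hp, hpx, ?_⟩
          rwa [show p - x - v i = p - v i - x by abel]
      · exact ⟨none, s, ⟨hs, hsF⟩, hsx⟩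
    · rw [Fintype.sum_option, Fintype.sum_sum_type]
      simp only [Option.elim, Sum.elim_inl, Sum.elim_inr]
      rw [← Finset.mul_sum, ← Finset.mul_sum]
      linarith
  obtain ⟨x, hx⟩ := hdense
  refine ⟨(fun y : Plane => y - x) ⁻¹' K, ?_, ?_, ?_, ?_⟩
  · have h1 := (convex_box u (-a) a (-b) b).translate_preimage_right (-x)
    have h2 : (fun y : Plane => y - x) = fun y => -x + y := by
      funext y; exact sub_eq_neg_add y x
    rw [h2]; exact h1
  · apply isCompact_of_isClosed_isBounded (hKclosed.preimage (continuous_sub_right x))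
    rw [isBounded_iff_forall_norm_le]
    refine ⟨a + b + ‖x‖, fun y hy => ?_⟩
    have h1 := hKb hy
    rw [mem_closedBall_zero_iff] at h1
    calc ‖y‖ = ‖(y - x) + x‖ := by rw [sub_add_cancel]
      _ ≤ ‖y - x‖ + ‖x‖ := norm_add_le _ _
      _ ≤ _ := by linarith
  · rw [(measurePreserving_sub_right volume x).measure_preimage
      hKclosed.measurableSet.nullMeasurableSet, hKvol]
  · rw [Set.disjoint_left]
    intro y hy hyS
    exact hx y hyS hy

end Pool.Agent.H18.Danzer
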