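import Pool.Agent.H18.Danzer.Vec

/-!
# Danzer's problem: densities and the covering lemma
-/

set_option autoImplicit false

open Metric Set MeasureTheory Filter

namespace Pool.Agent.H18.Danzer

/-- The upper density of `T` along the disks `B(x n, r n)` is at most `d`: for every fixed `R` and
`ε > 0` the disk of centre `x n` and radius `r n + R` contains at most `(d + ε) π (r n)²` points of
`T` for all large `n`. -/
def DensityLE (x : ℕ → Plane) (r : ℕ → ℝ) (T : Set Plane) (d : ℝ) : Prop :=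
  ∀ R : ℝ, ∀ ε : ℝ, 0 < ε → ∀ᶠ n in atTop,
    (T ∩ closedBall (x n) (r n + R)).Finite ∧
    ((T ∩ closedBall (x n) (r n + R)).ncard : ℝ) ≤ (d + ε) * (Real.pi * r n ^ 2)

variable {x : ℕ → Plane} {r : ℕ → ℝ}

lemma DensityLE.nonneg (hr : Tendsto r atTop atTop) {T : Set Plane} {d : ℝ}
    (h : DensityLE x r T d) : 0 ≤ d := by
  by_contra hd
  push Not at hd
  obtain ⟨n, h1, h2⟩ := ((h 0 (-d / 2) (by linarith)).and
    (hr.eventually (eventually_ge_atTop 1))).exists
  have h3 : (0 : ℝ) ≤ ((T ∩ closedBall (x n) (r n + 0)).ncard : ℝ) := by positivity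
  have h4 : (0 : ℝ) < Real.pi * r n ^ 2 := by
    have : (0 : ℝ) < r n := by linarith
    positivity
  have h5 := h1.2
  nlinarith

lemma DensityLE.mono {A B : Set Plane} {d : ℝ} (hB : DensityLE x r B d) (h : A ⊆ B) :
    DensityLE x r A d := by
  intro R ε hε
  filter_upwards [hB R ε hε] with n hn
  have h3 : A ∩ closedBall (x n) (r n + R) ⊆ B ∩ closedBall (x n) (r n + R) :=
    inter_subset_inter_left _ h
  refine ⟨hn.1.subset h3, le_trans ?_ hn.2⟩
  exact_mod_cast ncard_le_ncard h3 hn.1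

lemma DensityLE.mono_right {A : Set Plane} {d d' : ℝ} (hB : DensityLE x r A d) (h : d ≤ d') :
    DensityLE x r A d' := by
  intro R ε hε
  filter_upwards [hB R ε hε] with n hn
  refine ⟨hn.1, hn.2.trans ?_⟩
  gcongr

lemma DensityLE.union {A B : Set Plane} {a b : ℝ} (hA : DensityLE x r A a)
    (hB : DensityLE x r B b) : DensityLE x r (A ∪ B) (a + b) := by
  intro R ε hε
  filter_upwards [hA R (ε / 2) (by linarith), hB R (ε / 2) (by linarith)] with n ha hb
  rw [union_inter_distrib_right]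
  refine ⟨ha.1.union hb.1, ?_⟩
  have h2 : (((A ∩ closedBall (x n) (r n + R)) ∪ (B ∩ closedBall (x n) (r n + R))).ncard : ℝ) ≤
      ((A ∩ closedBall (x n) (r n + R)).ncard : ℝ) +
        ((B ∩ closedBall (x n) (r n + R)).ncard : ℝ) := by
    exact_mod_cast ncard_union_le _ _
  have e : (a + b + ε) * (Real.pi * r n ^ 2) = (a + ε / 2) * (Real.pi * r n ^ 2) +
      (b + ε / 2) * (Real.pi * r n ^ 2) := by ring
  rw [e]
  linarith [ha.2, hb.2]

lemma DensityLE.of_translate {A B : Set Plane} {d : ℝ} (t : Plane) (hB : DensityLE x r B d)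
    (h : ∀ p ∈ A, p + t ∈ B) : DensityLE x r A d := by
  intro R ε hε
  filter_upwards [hB (R + ‖t‖) ε hε] with n hn
  obtain ⟨h1, h2⟩ := hn
  have hinj : InjOn (fun p : Plane => p + t) (A ∩ closedBall (x n) (r n + R)) :=
    fun y _ z _ hyz => add_right_cancel hyz
  have himg : (fun p : Plane => p + t) '' (A ∩ closedBall (x n) (r n + R)) ⊆
      B ∩ closedBall (x n) (r n + (R + ‖t‖)) := by
    rintro _ ⟨p, ⟨hp, hpr⟩, rfl⟩
    refine ⟨h p hp, ?_⟩
    rw [mem_closedBall, dist_eq_norm] at hpr ⊢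
    calc ‖p + t - x n‖ = ‖(p - x n) + t‖ := by congr 1; abel
      _ ≤ ‖p - x n‖ + ‖t‖ := norm_add_le _ _
      _ ≤ _ := by linarith
  refine ⟨Set.Finite.of_finite_image (h1.subset himg) hinj, ?_⟩
  refine le_trans ?_ h2
  rw [← hinj.ncard_image]
  exact_mod_cast ncard_le_ncard himg h1

/-- The covering lemma. -/
theorem exists_avoid (hr : Tendsto r atTop atTop) {ι : Type*} [Fintype ι] (S K : Set Plane)
    (T U : ι → Set Plane)
    (a d : ι → ℝ) (ρ : ℝ) (ha : ∀ j, 0 ≤ a j)
    (hU : ∀ j, U j ⊆ closedBall (0 : Plane) ρ)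
    (hUm : ∀ j, MeasurableSet (U j)) (hUv : ∀ j, volume (U j) ≤ ENNReal.ofReal (a j))
    (hT : ∀ j, DensityLE x r (T j) (d j))
    (hcov : ∀ y : Plane, (∃ s ∈ S, s - y ∈ K) → ∃ j, ∃ p ∈ T j, p - y ∈ U j)
    (hsum : ∑ j, a j * d j < 1) : ∃ y : Plane, ∀ s ∈ S, s - y ∉ K := by
  classical
  by_contra hno
  push Not at hno
  set σ : ℝ := ∑ j, a j * d j with hσ
  set α : ℝ := ∑ j, a j with hα
  have hα0 : 0 ≤ α := Finset.sum_nonneg fun j _ => ha j
  have h1σ : 0 < 1 - σ := by linarith
  set ε : ℝ := (1 - σ) / (2 * (α + 1)) with hε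
  have hε0 : 0 < ε := by positivity
  have hev : ∀ᶠ n in atTop, ∀ j, (T j ∩ closedBall (x n) (r n + ρ)).Finite ∧
      ((T j ∩ closedBall (x n) (r n + ρ)).ncard : ℝ) ≤ (d j + ε) * (Real.pi * r n ^ 2) :=
    eventually_all.2 fun j => hT j ρ ε hε0
  obtain ⟨n, hn, hr1⟩ := (hev.and (hr.eventually (eventually_ge_atTop (1 : ℝ)))).exists
  have hr0 : 0 < r n := by linarith
  -- cover
  have hcover : closedBall (x n) (r n) ⊆ ⋃ j ∈ (Finset.univ : Finset ι),
      ⋃ p ∈ (hn j).1.toFinset, {y : Plane | p - y ∈ U j} := by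
    intro y hy
    obtain ⟨s, hs, hsx⟩ := hno y
    obtain ⟨j, p, hp, hpx⟩ := hcov y ⟨s, hs, hsx⟩
    simp only [mem_iUnion, Finset.mem_univ, true_and, exists_prop, Finite.mem_toFinset,
      mem_inter_iff, mem_ofPred_eq]
    refine ⟨j, p, ⟨hp, ?_⟩, hpx⟩
    have h1 := hU j hpx
    rw [mem_closedBall_zero_iff] at h1
    rw [mem_closedBall, dist_eq_norm] at hy ⊢
    calc ‖p - x n‖ = ‖(y - x n) + (p - y)‖ := by congr 1; abel
      _ ≤ ‖y - x n‖ + ‖p - y‖ := norm_add_le _ _
      _ ≤ r n + ρ := by linarith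
  have hvol : ∀ (j : ι) (p : Plane), volume {y : Plane | p - y ∈ U j} ≤ ENNReal.ofReal (a j) := by
    intro j p
    have h1 : volume ((fun y : Plane => p - y) ⁻¹' (U j)) = volume (U j) :=
      (Measure.measurePreserving_sub_left volume p).measure_preimage (hUm j).nullMeasurableSet
    exact (le_of_eq h1).trans (hUv j)
  have hle' : σ + ε * α < 1 := by
    have : ε * α ≤ (1 - σ) / 2 := by
      rw [hε, div_mul_eq_mul_div, div_le_div_iff₀ (by positivity) (by positivity)]
      nlinarith
    linarith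
  have hmain : volume (closedBall (x n) (r n)) ≤
      ENNReal.ofReal ((σ + ε * α) * (Real.pi * r n ^ 2)) := by
    calc volume (closedBall (x n) (r n))
        ≤ volume (⋃ j ∈ (Finset.univ : Finset ι),
            ⋃ p ∈ (hn j).1.toFinset, {y : Plane | p - y ∈ U j}) := measure_mono hcover
      _ ≤ ∑ j, volume (⋃ p ∈ (hn j).1.toFinset, {y : Plane | p - y ∈ U j}) :=
          measure_biUnion_finset_le _ _
      _ ≤ ∑ j, ∑ p ∈ (hn j).1.toFinset, volume {y : Plane | p - y ∈ U j} := by
          gcongr with j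
          exact measure_biUnion_finset_le _ _
      _ ≤ ∑ j, ∑ p ∈ (hn j).1.toFinset, ENNReal.ofReal (a j) := by
          gcongr with j _ p
          exact hvol j p
      _ = ∑ j, ENNReal.ofReal (((T j ∩ closedBall (x n) (r n + ρ)).ncard : ℝ) * a j) := by
          apply Finset.sum_congr rfl
          intro j _
          have hc := ncard_eq_toFinset_card _ (hn j).1
          rw [Finset.sum_const, nsmul_eq_mul, ENNReal.ofReal_mul (by positivity),
            ENNReal.ofReal_natCast, ← hc]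
      _ = ENNReal.ofReal (∑ j, (((T j ∩ closedBall (x n) (r n + ρ)).ncard : ℝ) * a j)) := by
          rw [ENNReal.ofReal_sum_of_nonneg]
          intro j _
          exact mul_nonneg (by positivity) (ha j)
      _ ≤ ENNReal.ofReal ((σ + ε * α) * (Real.pi * r n ^ 2)) := by
          apply ENNReal.ofReal_le_ofReal
          have : (σ + ε * α) * (Real.pi * r n ^ 2) =
              ∑ j, (d j + ε) * (Real.pi * r n ^ 2) * a j := by
            rw [hσ, hα, Finset.mul_sum, ← Finset.sum_add_distrib, Finset.sum_mul]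
            apply Finset.sum_congr rfl
            intro j _
            ring
          rw [this]
          apply Finset.sum_le_sum
          intro j _
          exact mul_le_mul_of_nonneg_right (hn j).2 (ha j)
  have hball : volume (closedBall (x n) (r n)) = ENNReal.ofReal (Real.pi * r n ^ 2) := by
    rw [EuclideanSpace.volume_closedBall_fin_two, mul_comm, ENNReal.ofReal_mul Real.pi_pos.le,
      ENNReal.ofReal_pow hr0.le]
  rw [hball] at hmain
  have hpos : 0 < Real.pi * r n ^ 2 := by positivity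
  have hle : Real.pi * r n ^ 2 ≤ (σ + ε * α) * (Real.pi * r n ^ 2) := by
    rcases le_or_gt 0 (σ + ε * α) with h | h
    · rwa [ENNReal.ofReal_le_ofReal_iff (by positivity)] at hmain
    · exfalso
      have h2 : ENNReal.ofReal ((σ + ε * α) * (Real.pi * r n ^ 2)) = 0 := by
        apply ENNReal.ofReal_of_nonpos
        nlinarith
      rw [h2, nonpos_iff_eq_zero, ENNReal.ofReal_eq_zero] at hmain
      linarith
  nlinarith

end Pool.Agent.H18.Danzer
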