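import Pool.Agent.H18.Danzer.Core

/-!
# Danzer's problem: finite unions of almost periodic sets
-/

set_option autoImplicit false

open Metric Set MeasureTheory Filter

namespace Pool.Agent.H18.Danzer

/-- Finite upper density along the disks `B(x n, r n)`. -/
def FiniteDensity (x : ℕ → Plane) (r : ℕ → ℝ) (T : Set Plane) : Prop :=
  ∃ D : ℝ, DensityLE x r T D

/-- The `e`-almost periods of `F`: the vectors `t` such that the points of `F` whose translate by
`t` is not in `F` have upper density at most `e`, and the same for `-t`. -/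
def AlmostPeriods (x : ℕ → Plane) (r : ℕ → ℝ) (F : Set Plane) (e : ℝ) : Set Plane :=
  {t | DensityLE x r {p | p ∈ F ∧ p + t ∉ F} e ∧ DensityLE x r {p | p ∈ F ∧ p - t ∉ F} e}

variable {x : ℕ → Plane} {r : ℕ → ℝ}

theorem almostPeriods_sub {F : Set Plane} {e : ℝ} {s t : Plane}
    (hs : s ∈ AlmostPeriods x r F e) (ht : t ∈ AlmostPeriods x r F e) :
    DensityLE x r {p | p ∈ F ∧ p - (s - t) ∉ F} (2 * e) := by
  have h1 : DensityLE x r {p | p + t ∈ F ∧ p + t - s ∉ F} e :=
    DensityLE.of_translate t hs.2 (fun p hp => hp)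
  refine ((ht.1.union h1).mono_right (by linarith)).mono ?_
  rintro p ⟨hp, hpn⟩
  by_cases h : p + t ∈ F
  · right
    refine ⟨h, ?_⟩
    rwa [show p + t - s = p - (s - t) by abel]
  · left
    exact ⟨hp, h⟩

theorem main (hr : Tendsto r atTop atTop) (A : ℝ) (hA : 0 < A) (S : Set Plane)
    (u : Plane) (hu : u ≠ 0) (m : ℕ) (G : Fin m → Set Plane) (c g : Fin m → ℝ)
    (hc : ∀ j, c j ≠ 0) (hGf : ∀ j, FiniteDensity x r (G j))
    (hG : ∀ j, DensityLE x r {p | p ∈ G j ∧ p - c j • u ∉ G j} (g j))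
    (k : ℕ) (F : Fin k → Set Plane) (e : Fin k → ℝ) (hFf : ∀ i, FiniteDensity x r (F i))
    (hF : ∀ i, RelativelyDense (AlmostPeriods x r (F i) (e i)))
    (d : ℝ) (hS : DensityLE x r (S \ ((⋃ j, G j) ∪ ⋃ i, F i)) d)
    (hlt : d + ∑ j, g j + 2 * ∑ i, e i < 1 / A) :
    ∃ K : Set Plane, Convex ℝ K ∧ IsCompact K ∧ volume K = ENNReal.ofReal A ∧ Disjoint K S := by
  classical
  choose DG hDG using hGf
  choose DF hDF using hFf
  set Dt : ℝ := ∑ j, DG j + ∑ i, DF i with hDt
  have hDt0 : 0 ≤ Dt := add_nonneg (Finset.sum_nonneg fun j _ => (hDG j).nonneg hr)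
    (Finset.sum_nonneg fun i _ => (hDF i).nonneg hr)
  set σ : ℝ := d + ∑ j, g j + 2 * ∑ i, e i with hσ
  have hσ1 : A * σ < 1 := by
    rwa [lt_div_iff₀ hA, mul_comm] at hlt
  set γ : ℝ := 1 - A * σ with hγ
  have hγ0 : 0 < γ := by linarith
  set Λ : ℝ := 4 * A * (Dt + 1) / γ with hΛ
  have hΛ0 : 0 < Λ := by positivity
  set δ : ℝ := γ / (16 * Λ * (Dt + 1)) with hδ
  have hδ0 : 0 < δ := by positivity
  have hc0 : 0 ≤ ∑ j, |c j| := Finset.sum_nonneg fun j _ => abs_nonneg _
  set δ' : ℝ := δ / (1 + ∑ j, |c j|) with hδ'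
  have hδ'0 : 0 < δ' := by positivity
  have hδ'1 : δ' ≤ δ := by
    rw [hδ', div_le_iff₀ (by positivity)]
    nlinarith
  have hδ'2 : ∀ j, |c j| * δ' ≤ δ := by
    intro j
    have h1 : |c j| ≤ 1 + ∑ j, |c j| := by
      have h0 : |c j| ≤ ∑ j, |c j| := Finset.single_le_sum (f := fun j => |c j|)
        (fun j _ => abs_nonneg (c j)) (Finset.mem_univ j)
      linarith
    calc |c j| * δ' ≤ (1 + ∑ j, |c j|) * δ' := by gcongr
      _ = δ := by rw [hδ']; field_simp
  obtain ⟨v, hv0, hvP, hvu, hvv⟩ := nearly_parallel u hu k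
    (fun i => AlmostPeriods x r (F i) (e i)) hF δ' hδ'0
  have hwc : ∀ (x : ℝ) (y : Plane), wedge (x • u) y = x * wedge u y := by
    intro x y; unfold wedge; simp; ring
  have hwc' : ∀ (x : ℝ) (y : Plane), wedge y (x • u) = x * wedge y u := by
    intro x y; unfold wedge; simp; ring
  refine core (x := x) hr (ι := Fin m ⊕ Fin k) A hA S (Sum.elim G F) (Sum.elim DG DF)
    (Sum.elim g (fun i => 2 * e i)) d δ Λ hδ0.le hΛ0 u hu
    (Sum.elim (fun j => c j • u) v) ?_ ?_ ?_ ?_ ?_ ?_ ?_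
  · rintro (j | i)
    · exact smul_ne_zero (hc j) hu
    · exact hv0 i
  · rintro (j | i)
    · simp only [Sum.elim_inl]
      rw [hwc, wedge_self, mul_zero, abs_zero]; exact hδ0.le
    · exact (hvu i).trans hδ'1
  · rintro (j | i) (j' | i')
    · simp only [Sum.elim_inl]
      rw [hwc, hwc', wedge_self, mul_zero, mul_zero, abs_zero]; exact hδ0.le
    · simp only [Sum.elim_inl, Sum.elim_inr]
      rw [hwc, abs_mul, wedge_swap, abs_neg]
      exact (mul_le_mul_of_nonneg_left (hvu i') (abs_nonneg _)).trans (hδ'2 j)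
    · simp only [Sum.elim_inl, Sum.elim_inr]
      rw [hwc', abs_mul]
      exact (mul_le_mul_of_nonneg_left (hvu i) (abs_nonneg _)).trans (hδ'2 j')
    · exact (hvv i i').trans hδ'1
  · rintro (j | i)
    · exact hDG j
    · exact hDF i
  · rintro (j | i)
    · exact hG j
    · obtain ⟨s, hs, t, ht, hst⟩ := hvP i
      simp only [Sum.elim_inr]
      rw [hst]
      exact almostPeriods_sub hs ht
  · have hU : (⋃ i : Fin m ⊕ Fin k, (Sum.elim G F i : Set Plane)) = (⋃ j, G j) ∪ ⋃ i, F i := by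
      ext x
      simp [mem_iUnion, Sum.exists]
    rw [hU]; exact hS
  · rw [Fintype.sum_sum_type, Fintype.sum_sum_type]
    simp only [Sum.elim_inl, Sum.elim_inr]
    rw [← hDt, ← Finset.mul_sum]
    have h2 : A / Λ * Dt ≤ γ / 4 := by
      rw [hΛ]
      have : A / (4 * A * (Dt + 1) / γ) * Dt = γ / 4 * (Dt / (Dt + 1)) := by
        field_simp
      rw [this]
      have h2 : Dt / (Dt + 1) ≤ 1 := by
        rw [div_le_one (by positivity)]; linarith
      nlinarith
    have h3 : 4 * Λ * δ * Dt ≤ γ / 4 := by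
      have : 4 * Λ * δ * Dt = γ / 4 * (Dt / (Dt + 1)) := by
        rw [hδ]; field_simp; norm_num
      rw [this]
      have h2 : Dt / (Dt + 1) ≤ 1 := by
        rw [div_le_one (by positivity)]; linarith
      nlinarith
    have h4 : A * (d + (∑ j, g j + 2 * ∑ i, e i)) = A * σ := by
      rw [hσ]; ring
    have h5 : (A / Λ + 4 * Λ * δ) * Dt = A / Λ * Dt + 4 * Λ * δ * Dt := by ring
    rw [h4, h5]
    linarith

end Pool.Agent.H18.Danzer
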