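import Pool.Agent.H18.Danzer.Cover

/-!
# Danzer's problem: rotated rectangles
-/

set_option autoImplicit false

open Metric Set MeasureTheory Filter

namespace Pool.Agent.H18.Danzer

/-- Coordinates in the orthonormal frame given by the unit vector `u`. -/
noncomputable def rot (u : Plane) (hu : ‖u‖ = 1) : Plane →ₗᵢ[ℝ] Plane where
  toFun x := !₂[dot u x, wedge u x]
  map_add' x y := by
    ext i; fin_cases i <;> simp [dot, wedge] <;> ring
  map_smul' c x := by
    ext i; fin_cases i <;> simp [dot, wedge] <;> ring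
  norm_map' x := by
    have h1 : ‖(!₂[dot u x, wedge u x] : Plane)‖ ^ 2 = ‖x‖ ^ 2 := by
      rw [norm_sq]
      have := dot_sq_add_wedge_sq u x
      rw [hu] at this
      simp only [one_pow, one_mul] at this
      simpa using this
    exact (pow_left_inj₀ (norm_nonneg _) (norm_nonneg _) two_ne_zero).1 h1

/-- A closed rectangle in the frame `u`. -/
def box (u : Plane) (a1 a2 b1 b2 : ℝ) : Set Plane :=
  {x | dot u x ∈ Icc a1 a2 ∧ wedge u x ∈ Icc b1 b2}

lemma continuous_dot (u : Plane) : Continuous (dot u) := by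
  unfold dot; fun_prop

lemma continuous_wedge (u : Plane) : Continuous (wedge u) := by
  unfold wedge; fun_prop

lemma isClosed_box (u : Plane) (a1 a2 b1 b2 : ℝ) : IsClosed (box u a1 a2 b1 b2) :=
  (isClosed_Icc.preimage (continuous_dot u)).inter (isClosed_Icc.preimage (continuous_wedge u))

lemma volume_box (u : Plane) (hu : ‖u‖ = 1) (a1 a2 b1 b2 : ℝ) :
    volume (box u a1 a2 b1 b2) = ENNReal.ofReal (a2 - a1) * ENNReal.ofReal (b2 - b1) := by
  have h1 : box u a1 a2 b1 b2 = ((rot u hu).toLinearIsometryEquiv rfl) ⁻¹'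
      ((WithLp.ofLp : Plane → (Fin 2 → ℝ)) ⁻¹' (Icc ![a1, b1] ![a2, b2])) := by
    ext x
    simp only [box, mem_ofPred_eq, mem_preimage, mem_Icc, Pi.le_def, Fin.forall_fin_two]
    simp only [LinearIsometry.coe_toLinearIsometryEquiv]
    simp [rot]
    tauto
  rw [h1, (LinearIsometryEquiv.measurePreserving _).measure_preimage,
    (PiLp.volume_preserving_ofLp (Fin 2)).measure_preimage measurableSet_Icc.nullMeasurableSet,
    Real.volume_Icc_pi]
  · simp [Fin.prod_univ_two]
  · exact ((PiLp.volume_preserving_ofLp (Fin 2)).measurable measurableSet_Icc).nullMeasurableSet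

lemma box_subset_closedBall {u : Plane} (hu : ‖u‖ = 1) {a b : ℝ} (ha : 0 ≤ a) (hb : 0 ≤ b) :
    box u (-a) a (-b) b ⊆ closedBall (0 : Plane) (a + b) := by
  intro x hx
  obtain ⟨h1, h2⟩ := hx
  rw [mem_closedBall_zero_iff]
  have h3 := dot_sq_add_wedge_sq u x
  rw [hu] at h3
  have h4 : dot u x ^ 2 ≤ a ^ 2 := sq_le_sq' h1.1 h1.2
  have h5 : wedge u x ^ 2 ≤ b ^ 2 := sq_le_sq' h2.1 h2.2
  apply le_of_sq_le_sq _ (by positivity)
  nlinarith [mul_nonneg ha hb]

lemma dot_smul_add (u x y : Plane) (s t : ℝ) :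
    dot u (s • x + t • y) = s * dot u x + t * dot u y := by
  unfold dot; simp; ring

lemma wedge_smul_add (u x y : Plane) (s t : ℝ) :
    wedge u (s • x + t • y) = s * wedge u x + t * wedge u y := by
  unfold wedge; simp; ring

lemma convex_box (u : Plane) (a1 a2 b1 b2 : ℝ) : Convex ℝ (box u a1 a2 b1 b2) := by
  intro x hx y hy s t hs ht hst
  refine ⟨?_, ?_⟩
  · rw [dot_smul_add]
    exact (convex_Icc a1 a2) hx.1 hy.1 hs ht hst
  · rw [wedge_smul_add]
    exact (convex_Icc b1 b2) hx.2 hy.2 hs ht hst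

lemma dot_sub_right (u x y : Plane) : dot u (x - y) = dot u x - dot u y := by
  unfold dot; simp; ring

lemma wedge_sub_right' (u x y : Plane) : wedge u (x - y) = wedge u x - wedge u y := by
  unfold wedge; simp; ring

/-- The crescent `K \ (K + v)` of a rectangle has small area. -/
lemma volume_crescent {u : Plane} (hu : ‖u‖ = 1) {a b : ℝ} (ha : 0 ≤ a) (hb : 0 ≤ b) (v : Plane) :
    volume {x : Plane | x ∈ box u (-a) a (-b) b ∧ x - v ∉ box u (-a) a (-b) b} ≤
      ENNReal.ofReal (4 * b * |dot u v| + 4 * a * |wedge u v|) := by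
  have hsub : {x : Plane | x ∈ box u (-a) a (-b) b ∧ x - v ∉ box u (-a) a (-b) b} ⊆
      (box u (-a) (-a + |dot u v|) (-b) b ∪ box u (a - |dot u v|) a (-b) b) ∪
      (box u (-a) a (-b) (-b + |wedge u v|) ∪ box u (-a) a (b - |wedge u v|) b) := by
    rintro x ⟨⟨⟨h1, h2⟩, ⟨h3, h4⟩⟩, hn⟩
    simp only [box, mem_ofPred_eq, mem_Icc, dot_sub_right, wedge_sub_right'] at hn
    simp only [box, mem_union, mem_ofPred_eq, mem_Icc]
    have e1 := le_abs_self (dot u v)
    have e2 := neg_abs_le (dot u v)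
    have e3 := le_abs_self (wedge u v)
    have e4 := neg_abs_le (wedge u v)
    by_contra hcon
    push Not at hcon
    obtain ⟨⟨c1, c2⟩, ⟨c3, c4⟩⟩ := hcon
    apply hn
    have d1 : -a + |dot u v| < dot u x := by
      by_contra hc
      push Not at hc
      exact absurd (c1 ⟨h1, hc⟩ h3) (not_lt.2 h4)
    have d2 : dot u x < a - |dot u v| := by
      by_contra hc
      push Not at hc
      exact absurd (c2 ⟨hc, h2⟩ h3) (not_lt.2 h4)
    have d3 := c3 ⟨h1, h2⟩ h3
    have d4 : wedge u x < b - |wedge u v| := by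
      by_contra hc
      push Not at hc
      exact absurd (c4 ⟨h1, h2⟩ hc) (not_lt.2 h4)
    exact ⟨⟨by linarith, by linarith⟩, ⟨by linarith, by linarith⟩⟩
  refine (measure_mono hsub).trans ?_
  have hp := abs_nonneg (dot u v)
  have hq := abs_nonneg (wedge u v)
  calc volume ((box u (-a) (-a + |dot u v|) (-b) b ∪ box u (a - |dot u v|) a (-b) b) ∪
      (box u (-a) a (-b) (-b + |wedge u v|) ∪ box u (-a) a (b - |wedge u v|) b))
      ≤ (volume (box u (-a) (-a + |dot u v|) (-b) b) + volume (box u (a - |dot u v|) a (-b) b)) +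
        (volume (box u (-a) a (-b) (-b + |wedge u v|)) +
          volume (box u (-a) a (b - |wedge u v|) b)) :=
        (measure_union_le _ _).trans (add_le_add (measure_union_le _ _) (measure_union_le _ _))
    _ = ENNReal.ofReal (4 * b * |dot u v| + 4 * a * |wedge u v|) := by
        rw [volume_box u hu, volume_box u hu, volume_box u hu, volume_box u hu]
        rw [← ENNReal.ofReal_mul (by linarith), ← ENNReal.ofReal_mul (by linarith),
          ← ENNReal.ofReal_mul (by linarith), ← ENNReal.ofReal_mul (by linarith),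
          ← ENNReal.ofReal_add, ← ENNReal.ofReal_add, ← ENNReal.ofReal_add]
        · congr 1; ring
        all_goals
          have w1 : 0 ≤ b * |dot u v| := mul_nonneg hb hp
          have w2 : 0 ≤ a * |wedge u v| := mul_nonneg ha hq
          nlinarith

/-- The chain lemma: walking by `v ≠ 0` inside a bounded translate of `K` one must leave `F` or
`K`. -/
lemma exists_exit {F K : Set Plane} (hK : Bornology.IsBounded K) {v : Plane} (hv : v ≠ 0)
    {s x : Plane} (hs : s ∈ F) (hsx : s - x ∈ K) :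
    ∃ p ∈ F, p - x ∈ K ∧ (p - v ∉ F ∨ p - v - x ∉ K) := by
  by_contra hcon
  push Not at hcon
  have hall : ∀ n : ℕ, s - (n : ℝ) • v ∈ F ∧ s - (n : ℝ) • v - x ∈ K := by
    intro n
    induction n with
    | zero => simpa using ⟨hs, hsx⟩
    | succ n ih =>
      have := hcon _ ih.1 ih.2
      have e : s - ((n + 1 : ℕ) : ℝ) • v = s - (n : ℝ) • v - v := by
        push_cast; rw [add_smul, one_smul]; abel
      rw [e]; exact this
  obtain ⟨C, hC⟩ := hK.exists_norm_le
  have hv' : 0 < ‖v‖ := norm_pos_iff.2 hv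
  obtain ⟨n, hn⟩ := exists_nat_gt ((C + ‖s - x‖) / ‖v‖)
  rw [div_lt_iff₀ hv'] at hn
  have h1 := hC _ (hall n).2
  have h2 : ‖(n : ℝ) • v‖ ≤ ‖s - x‖ + ‖s - (n : ℝ) • v - x‖ := by
    calc ‖(n : ℝ) • v‖ = ‖(s - x) - (s - (n : ℝ) • v - x)‖ := by congr 1; abel
      _ ≤ _ := norm_sub_le _ _
  rw [norm_smul, Real.norm_of_nonneg (by positivity)] at h2
  linarith

end Pool.Agent.H18.Danzer
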