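import Mathlib

/-!
# Danzer's problem: nearly parallel almost periods

For finitely many relatively dense sets `P_i` of vectors of the plane there are nonzero differences
`v_i` of elements of `P_i` with all wedge products `v_i ∧ v_j` as small as we like.
-/

set_option autoImplicit false

open Metric Set

namespace Pool.Agent.H18.Danzer

/-- The Euclidean plane. -/
abbrev Plane := EuclideanSpace ℝ (Fin 2)

/-- Every point of the plane is within a fixed distance of `P`. -/
def RelativelyDense (P : Set Plane) : Prop :=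
  ∃ R : ℝ, ∀ x : Plane, ∃ t ∈ P, dist t x ≤ R

/-- The wedge product. -/
def wedge (x y : Plane) : ℝ := x 0 * y 1 - x 1 * y 0

/-- The scalar product. -/
def dot (x y : Plane) : ℝ := x 0 * y 0 + x 1 * y 1

lemma norm_sq (x : Plane) : ‖x‖ ^ 2 = x 0 ^ 2 + x 1 ^ 2 := by
  rw [EuclideanSpace.real_norm_sq_eq]
  simp [Fin.sum_univ_two]

lemma dot_self (x : Plane) : dot x x = ‖x‖ ^ 2 := by
  rw [norm_sq]; unfold dot; ring

lemma wedge_self (x : Plane) : wedge x x = 0 := by unfold wedge; ring

lemma wedge_swap (x y : Plane) : wedge x y = - wedge y x := by unfold wedge; ring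

lemma dot_sq_add_wedge_sq (x y : Plane) :
    dot x y ^ 2 + wedge x y ^ 2 = ‖x‖ ^ 2 * ‖y‖ ^ 2 := by
  rw [norm_sq, norm_sq]; unfold dot wedge; ring

lemma abs_dot_le (x y : Plane) : |dot x y| ≤ ‖x‖ * ‖y‖ := by
  apply abs_le_of_sq_le_sq _ (by positivity)
  have := dot_sq_add_wedge_sq x y
  nlinarith [sq_nonneg (wedge x y)]

lemma abs_wedge_le (x y : Plane) : |wedge x y| ≤ ‖x‖ * ‖y‖ := by
  apply abs_le_of_sq_le_sq _ (by positivity)
  have := dot_sq_add_wedge_sq x y
  nlinarith [sq_nonneg (dot x y)]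

lemma wedge_identity (u v y : Plane) :
    dot v u * wedge u y - wedge u v * dot u y = ‖u‖ ^ 2 * wedge v y := by
  rw [norm_sq]; unfold dot wedge; ring

lemma dot_sub_left (x y z : Plane) : dot (x - y) z = dot x z - dot y z := by
  unfold dot; simp; ring

lemma wedge_sub_right (x y z : Plane) : wedge x (y - z) = wedge x y - wedge x z := by
  unfold wedge; simp; ring

/-- A relatively dense set has, in every direction `u`, two distinct points whose difference is
nearly parallel to `u`. -/
theorem dirichlet {P : Set Plane} {R : ℝ} (hR : 0 < R) (hP : ∀ x : Plane, ∃ t ∈ P, dist t x ≤ R)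
    (u : Plane) (hu : ‖u‖ = 1) (N : ℕ) (hN : 0 < N) :
    ∃ s ∈ P, ∃ t ∈ P, s ≠ t ∧ |dot (s - t) u| ≤ 5 * R * N ∧ |wedge u (s - t)| ≤ 2 * R / N := by
  classical
  -- the points
  choose f hfP hf using fun j : ℕ => hP ((3 * R * j) • u)
  have hNpos : (0 : ℝ) < N := by exact_mod_cast hN
  have hdu : dot u u = 1 := by rw [dot_self, hu]; norm_num
  have hdot_smul : ∀ c : ℝ, dot (c • u) u = c := by
    intro c
    have : dot (c • u) u = c * dot u u := by unfold dot; simp; ring
    rw [this, hdu, mul_one]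
  have hwedge_smul : ∀ c : ℝ, wedge u (c • u) = 0 := by
    intro c; unfold wedge; simp; ring
  have hdotf : ∀ j, |dot (f j) u - 3 * R * j| ≤ R := by
    intro j
    have h1 := abs_dot_le (f j - (3 * R * j) • u) u
    rw [dot_sub_left, hdot_smul, hu, mul_one] at h1
    have h2 := hf j
    rw [dist_eq_norm] at h2
    exact h1.trans h2
  have hwf : ∀ j, |wedge u (f j)| ≤ R := by
    intro j
    have h1 := abs_wedge_le u (f j - (3 * R * j) • u)
    rw [wedge_sub_right, hwedge_smul, hu, one_mul, sub_zero] at h1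
    have h2 := hf j
    rw [dist_eq_norm] at h2
    exact h1.trans h2
  -- pigeonhole
  have key : ∃ i ∈ Finset.range (N + 1), ∃ j ∈ Finset.range (N + 1), i ≠ j ∧
      ⌊(wedge u (f i) + R) / (2 * R) * N⌋₊ ⊓ (N - 1) =
      ⌊(wedge u (f j) + R) / (2 * R) * N⌋₊ ⊓ (N - 1) := by
    apply Finset.exists_ne_map_eq_of_card_lt_of_maps_to (t := Finset.range N)
    · simp
    · intro i _
      simp only [Finset.coe_range, mem_Iio]
      exact lt_of_le_of_lt (Nat.min_le_right _ _) (by omega)
  obtain ⟨i, hi, j, hj, hij, heq⟩ := key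
  have hirange : i ≤ N := Nat.lt_succ_iff.1 (Finset.mem_range.1 hi)
  have hjrange : j ≤ N := Nat.lt_succ_iff.1 (Finset.mem_range.1 hj)
  have hcell : ∀ i, let m : ℕ := ⌊(wedge u (f i) + R) / (2 * R) * N⌋₊ ⊓ (N - 1)
      (m : ℝ) ≤ (wedge u (f i) + R) / (2 * R) * N ∧
      (wedge u (f i) + R) / (2 * R) * N ≤ m + 1 := by
    intro i m
    have h0 : 0 ≤ (wedge u (f i) + R) / (2 * R) * N := by
      have := abs_le.1 (hwf i)
      have : 0 ≤ wedge u (f i) + R := by linarith [this.1]
      positivity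
    have h1 : (wedge u (f i) + R) / (2 * R) * N ≤ N := by
      have := abs_le.1 (hwf i)
      have h2 : (wedge u (f i) + R) / (2 * R) ≤ 1 := by
        rw [div_le_one (by positivity)]; linarith [this.2]
      nlinarith
    constructor
    · have : m ≤ ⌊(wedge u (f i) + R) / (2 * R) * N⌋₊ := Nat.min_le_left _ _
      calc (m : ℝ) ≤ (⌊(wedge u (f i) + R) / (2 * R) * N⌋₊ : ℕ) := by exact_mod_cast this
        _ ≤ _ := Nat.floor_le h0
    · rcases le_total ⌊(wedge u (f i) + R) / (2 * R) * N⌋₊ (N - 1) with h | h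
      · have hm : m = ⌊(wedge u (f i) + R) / (2 * R) * N⌋₊ := min_eq_left h
        rw [hm]
        exact (Nat.lt_floor_add_one _).le
      · have hm : m = N - 1 := min_eq_right h
        rw [hm]
        have : ((N - 1 : ℕ) : ℝ) + 1 = N := by
          have : N - 1 + 1 = N := Nat.sub_add_cancel hN
          exact_mod_cast this
        rw [this]; exact h1
  have hci := hcell i
  have hcj := hcell j
  simp only at hci hcj
  rw [← heq] at hcj
  refine ⟨f i, hfP i, f j, hfP j, ?_, ?_, ?_⟩
  · intro h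
    have h1 := hdotf i
    have h2 := hdotf j
    rw [h] at h1
    have h3 : |3 * R * (i : ℝ) - 3 * R * j| ≤ 2 * R := by
      have := abs_sub_abs_le_abs_sub (3 * R * (i : ℝ) - dot (f j) u) (3 * R * j - dot (f j) u)
      have e : 3 * R * (i : ℝ) - 3 * R * j
        = (3 * R * (i : ℝ) - dot (f j) u) - (3 * R * j - dot (f j) u) := by ring
      rw [e]
      refine (abs_sub _ _).trans ?_
      rw [abs_sub_comm (3 * R * (i : ℝ)), abs_sub_comm (3 * R * (j : ℝ))]
      linarith
    have h4 : (1 : ℝ) ≤ |(i : ℝ) - j| := by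
      have : (1 : ℤ) ≤ |(i : ℤ) - j| := by
        apply Int.one_le_abs
        intro h
        apply hij
        omega
      have h5 : ((1 : ℤ) : ℝ) ≤ ((|(i : ℤ) - j| : ℤ) : ℝ) := by exact_mod_cast this
      simpa using h5
    have h6 : |3 * R * (i : ℝ) - 3 * R * j| = 3 * R * |(i : ℝ) - j| := by
      rw [← mul_sub, abs_mul, abs_of_pos (by positivity : (0 : ℝ) < 3 * R)]
    rw [h6] at h3
    nlinarith
  · have h1 := abs_le.1 (hdotf i)
    have h2 := abs_le.1 (hdotf j)
    rw [dot_sub_left, abs_le]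
    have hi' : (i : ℝ) ≤ N := by exact_mod_cast hirange
    have hj' : (j : ℝ) ≤ N := by exact_mod_cast hjrange
    have hi0 : (0 : ℝ) ≤ i := by positivity
    have hj0 : (0 : ℝ) ≤ j := by positivity
    have hN1 : (1 : ℝ) ≤ N := by exact_mod_cast hN
    have a1 : 3 * R * (i : ℝ) ≤ 3 * R * N := by nlinarith
    have a2 : 3 * R * (j : ℝ) ≤ 3 * R * N := by nlinarith
    have a3 : 0 ≤ 3 * R * (i : ℝ) := by positivity
    have a4 : 0 ≤ 3 * R * (j : ℝ) := by positivity
    constructor <;> nlinarith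
  · rw [wedge_sub_right]
    have e1 : (wedge u (f i) + R) / (2 * R) * N - (wedge u (f j) + R) / (2 * R) * N =
        (wedge u (f i) - wedge u (f j)) * (N / (2 * R)) := by
      field_simp; ring
    have h1 : |(wedge u (f i) - wedge u (f j)) * (N / (2 * R))| ≤ 1 := by
      rw [← e1, abs_le]
      constructor <;> linarith [hci.1, hci.2, hcj.1, hcj.2]
    rw [abs_mul, abs_of_pos (by positivity : (0 : ℝ) < N / (2 * R))] at h1
    rw [le_div_iff₀ hNpos]
    have h2 : |wedge u (f i) - wedge u (f j)| * (N / (2 * R)) * (2 * R) ≤ 1 * (2 * R) := by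
      apply mul_le_mul_of_nonneg_right h1 (by positivity)
    have h3 : |wedge u (f i) - wedge u (f j)| * (N / (2 * R)) * (2 * R)
        = |wedge u (f i) - wedge u (f j)| * N := by
      field_simp
    rw [h3] at h2
    linarith

/-- One further nearly parallel vector. -/
theorem extend {P : Set Plane} (hP : RelativelyDense P) (m δ : ℝ) (hm : 0 < m) (hδ : 0 < δ) :
    ∃ δ' > 0, δ' ≤ δ ∧ ∀ z : Plane, m ≤ ‖z‖ → ∃ s ∈ P, ∃ t ∈ P, s - t ≠ 0 ∧
      ∀ y : Plane, ‖y‖ ≤ ‖z‖ → |wedge y z| ≤ δ' → |wedge (s - t) y| ≤ δ := by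
  obtain ⟨R0, hR0⟩ := hP
  set R : ℝ := max R0 1 with hRdef
  have hR : 0 < R := lt_of_lt_of_le one_pos (le_max_right _ _)
  have hPR : ∀ x : Plane, ∃ t ∈ P, dist t x ≤ R := fun x => by
    obtain ⟨t, ht, h⟩ := hR0 x
    exact ⟨t, ht, h.trans (le_max_left _ _)⟩
  -- wedge with y : (5 R N) (δ'/M) + (2R/N) M ≤ δ,  N = ⌈4 R M / δ⌉ ≤ 4RM/δ + 1
  set C : ℝ := 5 * R * (4 * R / δ + 1 / m) with hC
  have hCpos : 0 < C := by positivity
  refine ⟨min δ (δ / (2 * C)), by positivity, min_le_left _ _, ?_⟩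
  intro z hz
  have hM : 0 < ‖z‖ := lt_of_lt_of_le hm hz
  set M := ‖z‖ with hMdef
  set N : ℕ := ⌈4 * R * M / δ⌉₊ with hNdef
  have hN0 : 0 < N := Nat.ceil_pos.2 (by positivity)
  have hNpos : (0 : ℝ) < N := by exact_mod_cast hN0
  have hN1 : 4 * R * M / δ ≤ N := Nat.le_ceil _
  have hN2 : (N : ℝ) ≤ 4 * R * M / δ + 1 := (Nat.ceil_lt_add_one (by positivity)).le
  set u : Plane := (1 / M) • z with hudef
  have hu : ‖u‖ = 1 := by
    rw [hudef, norm_smul, Real.norm_of_nonneg (by positivity), ← hMdef]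
    field_simp
  obtain ⟨s, hs, t, ht, hst, h1, h2⟩ := dirichlet hR hPR u hu N hN0
  refine ⟨s, hs, t, ht, sub_ne_zero.2 hst, ?_⟩
  intro y hy hyz
  have hid := wedge_identity u (s - t) y
  rw [hu] at hid
  have huy : |wedge u y| ≤ (δ / (2 * C)) / M := by
    have e : wedge u y = (1 / M) * wedge z y := by
      rw [hudef]; unfold wedge; simp; ring
    rw [e, wedge_swap, abs_mul, abs_neg, abs_of_pos (by positivity : (0 : ℝ) < 1 / M)]
    have := hyz.trans (min_le_right _ _)
    calc 1 / M * |wedge y z| ≤ 1 / M * (δ / (2 * C)) := by gcongr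
      _ = _ := by ring
  have hduy : |dot u y| ≤ M := by
    have := abs_dot_le u y
    rw [hu, one_mul] at this
    exact this.trans hy
  have hw : wedge (s - t) y = dot (s - t) u * wedge u y - wedge u (s - t) * dot u y := by
    rw [hid]; ring
  rw [hw]
  have hb1 : |dot (s - t) u * wedge u y| ≤ δ / 2 := by
    rw [abs_mul]
    calc |dot (s - t) u| * |wedge u y| ≤ (5 * R * N) * ((δ / (2 * C)) / M) := by gcongr
      _ ≤ (5 * R * (4 * R * M / δ + 1)) * ((δ / (2 * C)) / M) := by gcongr
      _ ≤ (C * M) * ((δ / (2 * C)) / M) := by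
          apply mul_le_mul_of_nonneg_right _ (by positivity)
          rw [hC]
          have : 5 * R * (4 * R / δ + 1 / m) * M = 5 * R * (4 * R * M / δ + M / m) := by ring
          rw [this]
          gcongr
          rw [one_le_div hm]; exact hz
      _ = δ / 2 := by field_simp
  have hb2 : |wedge u (s - t) * dot u y| ≤ δ / 2 := by
    rw [abs_mul]
    calc |wedge u (s - t)| * |dot u y| ≤ (2 * R / N) * M := by gcongr
      _ ≤ (2 * R / (4 * R * M / δ)) * M := by gcongr
      _ = δ / 2 := by field_simp; ring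
  calc |dot (s - t) u * wedge u y - wedge u (s - t) * dot u y|
      ≤ |dot (s - t) u * wedge u y| + |wedge u (s - t) * dot u y| := abs_sub _ _
    _ ≤ δ := by linarith

/-- Nearly parallel nonzero differences of finitely many relatively dense sets, together with a
given vector `t0`. -/
theorem nearly_parallel (t0 : Plane) (ht0 : t0 ≠ 0) (k : ℕ) (P : Fin k → Set Plane)
    (hP : ∀ i, RelativelyDense (P i)) (δ : ℝ) (hδ : 0 < δ) :
    ∃ v : Fin k → Plane, (∀ i, v i ≠ 0) ∧ (∀ i, ∃ s ∈ P i, ∃ t ∈ P i, v i = s - t) ∧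
      (∀ i, |wedge (v i) t0| ≤ δ) ∧ ∀ i j, |wedge (v i) (v j)| ≤ δ := by
  induction k generalizing δ with
  | zero => exact ⟨fun i => i.elim0, fun i => i.elim0, fun i => i.elim0, fun i => i.elim0,
      fun i => i.elim0⟩
  | succ k ih =>
    obtain ⟨δ', hδ', hle, hext⟩ := extend (hP (Fin.last k)) ‖t0‖ δ (norm_pos_iff.2 ht0) hδ
    obtain ⟨v, hv0, hvP, hvt, hvv⟩ := ih (fun i => P i.castSucc) (fun i => hP _) δ' hδ'
    -- the longest vector
    obtain ⟨z, hz1, hz2, hz3, hz4⟩ : ∃ z : Plane, ‖t0‖ ≤ ‖z‖ ∧ (∀ i, ‖v i‖ ≤ ‖z‖) ∧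
        |wedge t0 z| ≤ δ' ∧ ∀ i, |wedge (v i) z| ≤ δ' := by
      classical
      obtain ⟨o, -, ho⟩ := Finset.exists_max_image (Finset.univ : Finset (Option (Fin k)))
        (fun o => ‖Option.elim o t0 v‖) ⟨none, Finset.mem_univ _⟩
      refine ⟨Option.elim o t0 v, ho none (Finset.mem_univ _), fun i => ho (some i)
        (Finset.mem_univ _), ?_, ?_⟩
      · cases o with
        | none => simp [wedge_self, hδ'.le]
        | some i => simp only [Option.elim]; rw [wedge_swap, abs_neg]; exact hvt i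
      · intro i
        cases o with
        | none => exact hvt i
        | some j => exact hvv i j
    obtain ⟨s, hs, t, ht, hst, hw⟩ := hext z hz1
    refine ⟨Fin.snoc v (s - t), ?_, ?_, ?_, ?_⟩
    · intro i
      refine Fin.lastCases ?_ (fun i => ?_) i
      · simpa using hst
      · simpa using hv0 i
    · intro i
      refine Fin.lastCases ?_ (fun i => ?_) i
      · exact ⟨s, hs, t, ht, by simp⟩
      · obtain ⟨a, ha, b, hb, hab⟩ := hvP i
        exact ⟨a, ha, b, hb, by simpa using hab⟩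
    · intro i
      refine Fin.lastCases ?_ (fun i => ?_) i
      · simpa using hw t0 hz1 hz3
      · simpa using (hvt i).trans hle
    · intro i j
      refine Fin.lastCases ?_ (fun i => ?_) i
      · refine Fin.lastCases ?_ (fun j => ?_) j
        · simp [wedge_self, hδ.le]
        · simpa using hw (v j) (hz2 j) (hz4 j)
      · refine Fin.lastCases ?_ (fun j => ?_) j
        · simp only [Fin.snoc_castSucc, Fin.snoc_last]
          rw [wedge_swap, abs_neg]
          exact hw (v i) (hz2 i) (hz4 i)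
        · simpa using (hvv i j).trans hle

end Pool.Agent.H18.Danzer
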